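import Pool.Agent.helper59.LD.Real2
import Pool.Agent.helper96.LK.All

/-!
# Local cyclicity of nondegenerate singular points: lower bounds
-/

open Set Filter Topology

namespace Pool.Agent.Results.MP_940ffa_an.LocalCyclicityGine

noncomputable section

/-- A real planar polynomial system `x' = P(x,y)`, `y' = Q(x,y)`. -/
structure Sys where
  /-- first component -/
  P : MvPolynomial (Fin 2) ℝ
  /-- second component -/
  Q : MvPolynomial (Fin 2) ℝ

namespace Sys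

/-- The degree of the system, `max (deg P) (deg Q)`. -/
def deg (S : Sys) : ℕ := max S.P.totalDegree S.Q.totalDegree

/-- The vector field `(x, y) ↦ (P(x,y), Q(x,y))`. -/
def field (S : Sys) (z : ℝ × ℝ) : ℝ × ℝ :=
  (MvPolynomial.eval ![z.1, z.2] S.P, MvPolynomial.eval ![z.1, z.2] S.Q)

/-- The Jacobian matrix of `(P, Q)` at a point. -/
def jacobian (S : Sys) (z : ℝ × ℝ) : Matrix (Fin 2) (Fin 2) ℝ :=
  !![MvPolynomial.eval ![z.1, z.2] (MvPolynomial.pderiv 0 S.P),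
      MvPolynomial.eval ![z.1, z.2] (MvPolynomial.pderiv 1 S.P);
    MvPolynomial.eval ![z.1, z.2] (MvPolynomial.pderiv 0 S.Q),
      MvPolynomial.eval ![z.1, z.2] (MvPolynomial.pderiv 1 S.Q)]

/-- `z` is a critical point whose Jacobian matrix has a pair of non-real eigenvalues: the
characteristic polynomial of the real `2 × 2` matrix has no real root. -/
def IsNondegCritical (S : Sys) (z : ℝ × ℝ) : Prop :=
  S.field z = 0 ∧ ∀ x : ℝ, ¬ (S.jacobian z).charpoly.IsRoot x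

/-- `γ` is (the image of) a nonconstant periodic solution of the system. -/
def IsPeriodicOrbit (S : Sys) (γ : Set (ℝ × ℝ)) : Prop :=
  ∃ c : ℝ → ℝ × ℝ, (∀ t, HasDerivAt c (S.field (c t)) t) ∧
    (∃ T : ℝ, 0 < T ∧ ∀ t, c (t + T) = c t) ∧ (∃ t, c t ≠ c 0) ∧ γ = range c

/-- A limit cycle: an isolated periodic orbit, that is, some open set containing it contains no
other periodic orbit. -/
def IsLimitCycle (S : Sys) (γ : Set (ℝ × ℝ)) : Prop :=
  S.IsPeriodicOrbit γ ∧ ∃ O : Set (ℝ × ℝ), IsOpen O ∧ γ ⊆ O ∧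
    ∀ γ' : Set (ℝ × ℝ), S.IsPeriodicOrbit γ' → γ' ⊆ O → γ' = γ

/-- All coefficients of `S` are within `δ` of those of `S₀`. -/
def Near (S S₀ : Sys) (δ : ℝ) : Prop :=
  ∀ s : Fin 2 →₀ ℕ, |MvPolynomial.coeff s S.P - MvPolynomial.coeff s S₀.P| < δ ∧
    |MvPolynomial.coeff s S.Q - MvPolynomial.coeff s S₀.Q| < δ

end Sys

/-- For every neighbourhood `U` of `z₀` and every `δ > 0` there is a system of degree at most `n`,
with coefficients within `δ` of those of `S₀`, having at least `m` limit cycles inside `U`. -/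
def HasCycles (n : ℕ) (S₀ : Sys) (z₀ : ℝ × ℝ) (m : ℕ) : Prop :=
  ∀ U ∈ 𝓝 z₀, ∀ δ : ℝ, 0 < δ → ∃ S : Sys, S.deg ≤ n ∧ S.Near S₀ δ ∧
    ∃ γ : Fin m → Set (ℝ × ℝ), Function.Injective γ ∧ ∀ j, S.IsLimitCycle (γ j) ∧ γ j ⊆ U

/-- The cyclicity of `z₀` for `S₀` in degree `n`. -/
def cyclicity (n : ℕ) (S₀ : Sys) (z₀ : ℝ × ℝ) : ℕ∞ :=
  ⨆ (m : ℕ) (_ : HasCycles n S₀ z₀ m), (m : ℕ∞)

/-- The supremum of the cyclicities of all nondegenerate critical points of all systems of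
degree `n`. -/
def Hhat (n : ℕ) : ℕ∞ :=
  ⨆ (S₀ : Sys) (z₀ : ℝ × ℝ) (_ : S₀.deg = n ∧ S₀.IsNondegCritical z₀), cyclicity n S₀ z₀

open helper59.LC

/-- the real system of a complex polynomial -/
def ofComplex (G : MvPolynomial (Fin 2) ℂ) : Sys := ⟨rePart G, imPart G⟩

/-- the identification of the planes -/
def pl : ℂ ≃L[ℝ] ℝ × ℝ := Complex.equivRealProdCLM

theorem pl_apply (z : ℂ) : pl z = (z.re, z.im) := rfl

theorem pl_symm_apply (z : ℝ × ℝ) : pl.symm z = (z.1 : ℂ) + Complex.I * (z.2 : ℂ) := by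
  apply pl.injective
  rw [ContinuousLinearEquiv.apply_symm_apply, pl_apply]
  simp

theorem field_ofComplex (k : ℕ) (g : Polynomial ℂ) (c0 : ℝ) (γ : ℕ × ℕ → ℂ) (ε : ℝ)
    (z : ℝ × ℝ) :
    (ofComplex (Gp k g c0 γ ε)).field z = pl (ZF k g c0 γ ε (pl.symm z)) := by
  rw [pl_apply, pl_symm_apply, Sys.field, ofComplex]
  simp only
  have h := eval_Gp k g c0 γ ε ![z.1, z.2]
  rw [eval_rePart, eval_imPart, h]
  simp

theorem isPeriodicOrbit_iff (k : ℕ) (g : Polynomial ℂ) (c0 : ℝ) (γ : ℕ × ℕ → ℂ) (ε : ℝ)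
    (A : Set (ℝ × ℝ)) :
    (ofComplex (Gp k g c0 γ ε)).IsPeriodicOrbit A ↔
      ∃ c : ℝ → ℂ, IsPer (ZF k g c0 γ ε) c ∧ (∃ t, c t ≠ c 0) ∧ A = pl '' range c := by
  constructor
  · rintro ⟨c, hc, hT, ⟨t, ht⟩, rfl⟩
    refine ⟨fun t => pl.symm (c t), ⟨fun t => ?_, ?_⟩, ⟨t, fun h => ht (pl.symm.injective h)⟩, ?_⟩
    · have h1 := hc t
      rw [field_ofComplex] at h1
      have h2 := (pl.symm : (ℝ × ℝ) →L[ℝ] ℂ).hasFDerivAt (x := c t)
      have h3 : HasDerivAt (fun t => pl.symm (c t))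
          (pl.symm (pl (ZF k g c0 γ ε (pl.symm (c t))))) t := h2.comp_hasDerivAt t h1
      rwa [ContinuousLinearEquiv.symm_apply_apply] at h3
    · obtain ⟨T, hT, h⟩ := hT
      exact ⟨T, hT, fun t => by simp only; rw [h]⟩
    · rw [← range_comp]
      exact congrArg range (funext fun t => (pl.apply_symm_apply (c t)).symm)
  · rintro ⟨c, ⟨hc, hT⟩, ⟨t, ht⟩, rfl⟩
    refine ⟨fun t => pl (c t), fun t => ?_, ?_, ⟨t, fun h => ht (pl.injective h)⟩, ?_⟩
    · have h2 := (pl : ℂ →L[ℝ] (ℝ × ℝ)).hasFDerivAt (x := c t)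
      have h3 : HasDerivAt (fun t => pl (c t)) (pl (ZF k g c0 γ ε (c t))) t :=
        h2.comp_hasDerivAt t (hc t)
      rwa [field_ofComplex, ContinuousLinearEquiv.symm_apply_apply]
    · obtain ⟨T, hT, h⟩ := hT
      exact ⟨T, hT, fun t => by simp only; rw [h]⟩
    · rw [← range_comp]
      rfl

theorem jacobian_zero (p q : ℂ) (k : ℕ) :
    (ofComplex (G0 (Polynomial.C p + Polynomial.C q * Polynomial.X ^ k))).jacobian 0 =
      !![0, -1; 1, 0] := by
  have h0 : (![(0 : ℝ × ℝ).1, (0 : ℝ × ℝ).2] : Fin 2 → ℝ) = 0 := by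
    ext i
    fin_cases i <;> rfl
  have hz : (fun i : Fin 2 => (((0 : Fin 2 → ℝ) i : ℝ) : ℂ)) = 0 := by
    ext i
    simp
  have hZ : MvPolynomial.eval (0 : Fin 2 → ℂ) Zp = 0 := by
    rw [Zp]
    simp
  have key : ∀ i : Fin 2, MvPolynomial.eval (0 : Fin 2 → ℂ) (MvPolynomial.pderiv i
      (G0 (Polynomial.C p + Polynomial.C q * Polynomial.X ^ k))) =
      Complex.I * MvPolynomial.eval (0 : Fin 2 → ℂ) (MvPolynomial.pderiv i Zp) := by
    intro i
    rw [G0, aeval_FFb, MvPolynomial.algebraMap_eq]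
    simp only [map_add, MvPolynomial.pderiv_C_mul, Derivation.leibniz_pow, map_mul,
      smul_eq_mul, MvPolynomial.eval_C, hZ, nsmul_eq_mul, map_pow]
    simp
  have e0 : MvPolynomial.eval (0 : Fin 2 → ℂ) (MvPolynomial.pderiv 0 Zp) = 1 := by
    rw [Zp, map_add, MvPolynomial.pderiv_C_mul, MvPolynomial.pderiv_X_self,
      MvPolynomial.pderiv_X_of_ne (by decide)]
    simp
  have e1 : MvPolynomial.eval (0 : Fin 2 → ℂ) (MvPolynomial.pderiv 1 Zp) = Complex.I := by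
    rw [Zp, map_add, MvPolynomial.pderiv_C_mul, MvPolynomial.pderiv_X_self,
      MvPolynomial.pderiv_X_of_ne (by decide)]
    simp
  rw [Sys.jacobian, h0, ofComplex]
  simp only
  rw [pderiv_rePart, pderiv_rePart, pderiv_imPart, pderiv_imPart, eval_rePart, eval_rePart,
    eval_imPart, eval_imPart, hz, key, key, e0, e1]
  simp

theorem nondeg_zero (p q : ℂ) (k : ℕ) :
    (ofComplex (G0 (Polynomial.C p + Polynomial.C q * Polynomial.X ^ k))).IsNondegCritical 0 := by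
  constructor
  · have h0 : (![(0 : ℝ × ℝ).1, (0 : ℝ × ℝ).2] : Fin 2 → ℝ) = 0 := by
      ext i
      fin_cases i <;> rfl
    have hz : (fun i : Fin 2 => (((0 : Fin 2 → ℝ) i : ℝ) : ℂ)) = 0 := by
      ext i
      simp
    have hZ : MvPolynomial.eval (0 : Fin 2 → ℂ) Zp = 0 := by
      rw [Zp]
      simp
    have h1 : MvPolynomial.eval (0 : Fin 2 → ℂ)
        (G0 (Polynomial.C p + Polynomial.C q * Polynomial.X ^ k)) = 0 := by
      rw [G0, aeval_FFb]
      simp only [map_add, map_mul, map_pow, hZ]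
      simp
    rw [Sys.field, h0, ofComplex]
    simp only
    rw [eval_rePart, eval_imPart, hz, h1]
    simp
  · intro x hx
    rw [jacobian_zero, Polynomial.IsRoot, Matrix.charpoly_fin_two] at hx
    simp [Matrix.trace_fin_two, Matrix.det_fin_two] at hx
    nlinarith [sq_nonneg x]

theorem hasCycles (k : ℕ) (hk : 3 ≤ k) : ∃ p q : ℂ, q ≠ 0 ∧
    HasCycles (k + 2) (ofComplex (G0 (Polynomial.C p + Polynomial.C q * Polynomial.X ^ k))) 0
      ((k + 1) * (k + 4)) := by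
  obtain ⟨p, q, hq, hpq⟩ := complex_cycles hk
  refine ⟨p, q, hq, fun U hU δ hδ => ?_⟩
  have hU' : pl ⁻¹' U ∈ 𝓝 (0 : ℂ) := by
    apply pl.continuous.continuousAt
    rwa [map_zero]
  obtain ⟨c0, γ, ε₀, hε₀, hall⟩ := hpq _ rfl (pl ⁻¹' U) hU'
  set g : Polynomial ℂ := Polynomial.C p + Polynomial.C q * Polynomial.X ^ k with hg
  set H := Hp k c0 γ with hH
  set K : ℝ := ∑ s ∈ H.support, ‖MvPolynomial.coeff s H‖ + 1 with hK
  have hK0 : 0 < K := by
    have : 0 ≤ ∑ s ∈ H.support, ‖MvPolynomial.coeff s H‖ :=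
      Finset.sum_nonneg fun _ _ => norm_nonneg _
    linarith
  have hKs : ∀ s, ‖MvPolynomial.coeff s H‖ < K := by
    intro s
    by_cases hs : s ∈ H.support
    · have := Finset.single_le_sum (f := fun s => ‖MvPolynomial.coeff s H‖)
        (fun _ _ => norm_nonneg _) hs
      linarith
    · rw [MvPolynomial.notMem_support_iff] at hs
      rw [hs, norm_zero]
      exact hK0
  set ε := min (ε₀ / 2) (δ / K) with hε
  have hε1 : 0 < ε := lt_min (by positivity) (by positivity)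
  have hε2 : ε < ε₀ := (min_le_left _ _).trans_lt (by linarith)
  have hε3 : ε * K ≤ δ := by
    calc ε * K ≤ δ / K * K := mul_le_mul_of_nonneg_right (min_le_right _ _) hK0.le
      _ = δ := by field_simp
  obtain ⟨c, hcinj, hc⟩ := hall ε hε1 hε2
  refine ⟨ofComplex (Gp k g c0 γ ε), ?_, ?_, fun j => pl '' range (c j), ?_, fun j => ⟨?_, ?_⟩⟩
  · exact max_le ((totalDegree_rePart _).trans (totalDegree_Gp p q k c0 γ ε))
      ((totalDegree_imPart _).trans (totalDegree_Gp p q k c0 γ ε))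
  · intro s
    have h1 : MvPolynomial.coeff s (Gp k g c0 γ ε) =
        MvPolynomial.coeff s (G0 g) + (ε : ℂ) * MvPolynomial.coeff s H := by
      rw [Gp, G0, MvPolynomial.coeff_add, hH]
      congr 1
      exact MvPolynomial.coeff_C_mul _ _ _
    have h2 : ε * ‖MvPolynomial.coeff s H‖ < δ :=
      (mul_lt_mul_of_pos_left (hKs s) hε1).trans_le hε3
    constructor
    · change |MvPolynomial.coeff s (rePart (Gp k g c0 γ ε)) -
        MvPolynomial.coeff s (rePart (G0 g))| < δ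
      rw [coeff_rePart, coeff_rePart, h1, Complex.add_re, add_sub_cancel_left, Complex.re_ofReal_mul,
        abs_mul, abs_of_pos hε1]
      exact (mul_le_mul_of_nonneg_left (Complex.abs_re_le_norm _) hε1.le).trans_lt h2
    · change |MvPolynomial.coeff s (imPart (Gp k g c0 γ ε)) -
        MvPolynomial.coeff s (imPart (G0 g))| < δ
      rw [coeff_imPart, coeff_imPart, h1, Complex.add_im, add_sub_cancel_left, Complex.im_ofReal_mul,
        abs_mul, abs_of_pos hε1]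
      exact (mul_le_mul_of_nonneg_left (Complex.abs_im_le_norm _) hε1.le).trans_lt h2
  · intro i j hij
    exact hcinj (pl.injective.image_injective hij)
  · obtain ⟨hper, hne, hcU, O, hO, hcO, hun⟩ := hc j
    refine ⟨(isPeriodicOrbit_iff _ _ _ _ _ _).2 ⟨c j, hper, hne, rfl⟩, pl '' O, ?_, ?_, ?_⟩
    · exact pl.toHomeomorph.isOpenMap _ hO
    · exact image_mono hcO
    · intro γ' hγ' hsub
      obtain ⟨c', hper', -, rfl⟩ := (isPeriodicOrbit_iff _ _ _ _ _ _).1 hγ'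
      rw [hun c' hper' ((image_subset_image_iff pl.injective).1 hsub)]
  · obtain ⟨hper, hne, hcU, -⟩ := hc j
    exact image_subset_iff.2 hcU

/-- For every `n ≥ 5`, `Ĥ_n ≥ n² + n - 2`. -/
theorem lower₁ : ∀ n : ℕ, 5 ≤ n → ((n ^ 2 + n - 2 : ℕ) : ℕ∞) ≤ Hhat n := by
  intro n hn
  obtain ⟨k, rfl⟩ : ∃ k, n = k + 2 := ⟨n - 2, by omega⟩
  obtain ⟨p, q, hq, h⟩ := hasCycles k (by omega)
  have h1 : (k + 2) ^ 2 + (k + 2) - 2 = (k + 1) * (k + 4) := by
    have : (k + 2) ^ 2 + (k + 2) = (k + 1) * (k + 4) + 2 := by ring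
    omega
  rw [h1]
  set S₀ := ofComplex (G0 (Polynomial.C p + Polynomial.C q * Polynomial.X ^ k)) with hS
  have h2 : S₀.deg = k + 2 ∧ S₀.IsNondegCritical 0 := by
    refine ⟨le_antisymm ?_ ?_, nondeg_zero p q k⟩
    · refine max_le ((totalDegree_rePart _).trans ?_) ((totalDegree_imPart _).trans ?_)
      · exact (totalDegree_G0 hq (by omega)).le
      · exact (totalDegree_G0 hq (by omega)).le
    · rw [← totalDegree_G0 (p := p) hq (k := k) (by omega)]
      exact totalDegree_le_max _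
  have h3 : (((k + 1) * (k + 4) : ℕ) : ℕ∞) ≤ cyclicity (k + 2) S₀ 0 :=
    le_iSup₂ (f := fun (m : ℕ) (_ : HasCycles (k + 2) S₀ 0 m) => (m : ℕ∞)) _ h
  refine h3.trans ?_
  refine le_iSup_of_le S₀ (le_iSup_of_le 0 (le_iSup_of_le h2 le_rfl))

/-! ### the second family -/

open helper59.LD LK

theorem field_ff (P : MvPolynomial (Fin 2) ℂ) (z : ℝ × ℝ) :
    (ofComplex (ff ZZ P)).field z = pl (Ez P (pl.symm z)) := by
  rw [pl_apply, pl_symm_apply, Sys.field, ofComplex]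
  simp only
  have h := eval_ff P ![z.1, z.2]
  rw [eval_rePart, eval_imPart, h]
  simp

theorem isPeriodicOrbit_iff2 (P : MvPolynomial (Fin 2) ℂ) (A : Set (ℝ × ℝ)) :
    (ofComplex (ff ZZ P)).IsPeriodicOrbit A ↔
      ∃ c : ℝ → ℂ, IsPer (Ez P) c ∧ (∃ t, c t ≠ c 0) ∧ A = pl '' range c := by
  constructor
  · rintro ⟨c, hc, hT, ⟨t, ht⟩, rfl⟩
    refine ⟨fun t => pl.symm (c t), ⟨fun t => ?_, ?_⟩, ⟨t, fun h => ht (pl.symm.injective h)⟩, ?_⟩
    · have h1 := hc t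
      rw [field_ff] at h1
      have h2 := (pl.symm : (ℝ × ℝ) →L[ℝ] ℂ).hasFDerivAt (x := c t)
      have h3 : HasDerivAt (fun t => pl.symm (c t))
          (pl.symm (pl (Ez P (pl.symm (c t))))) t := h2.comp_hasDerivAt t h1
      rwa [ContinuousLinearEquiv.symm_apply_apply] at h3
    · obtain ⟨T, hT, h⟩ := hT
      exact ⟨T, hT, fun t => by simp only; rw [h]⟩
    · rw [← range_comp]
      exact congrArg range (funext fun t => (pl.apply_symm_apply (c t)).symm)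
  · rintro ⟨c, ⟨hc, hT⟩, ⟨t, ht⟩, rfl⟩
    refine ⟨fun t => pl (c t), fun t => ?_, ?_, ⟨t, fun h => ht (pl.injective h)⟩, ?_⟩
    · have h2 := (pl : ℂ →L[ℝ] (ℝ × ℝ)).hasFDerivAt (x := c t)
      have h3 : HasDerivAt (fun t => pl (c t)) (pl (Ez P (c t))) t :=
        h2.comp_hasDerivAt t (hc t)
      rwa [field_ff, ContinuousLinearEquiv.symm_apply_apply]
    · obtain ⟨T, hT, h⟩ := hT
      exact ⟨T, hT, fun t => by simp only; rw [h]⟩
    · rw [← range_comp]
      rfl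

section general
variable {n K : ℕ} (R : QPt n K)

theorem jacobian_zero2 : (ofComplex (ff ZZ (R.W))).jacobian 0 = !![0, -1; 1, 0] := by
  have h0 : (![(0 : ℝ × ℝ).1, (0 : ℝ × ℝ).2] : Fin 2 → ℝ) = 0 := by
    ext i
    fin_cases i <;> rfl
  have hz : (fun i : Fin 2 => (((0 : Fin 2 → ℝ) i : ℝ) : ℂ)) = 0 := by
    ext i
    simp
  obtain ⟨-, e0, e1, -⟩ := lkQW n K R
  have e0' : MvPolynomial.eval (0 : Fin 2 → ℂ) (MvPolynomial.pderiv 0 (ff ZZ (R.W))) =
      Complex.I := by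
    rw [MvPolynomial.eval_zero]
    exact e0
  have e1' : MvPolynomial.eval (0 : Fin 2 → ℂ) (MvPolynomial.pderiv 1 (ff ZZ (R.W))) = -1 := by
    rw [MvPolynomial.eval_zero]
    exact e1
  rw [Sys.jacobian, h0, ofComplex]
  simp only
  rw [pderiv_rePart, pderiv_rePart, pderiv_imPart, pderiv_imPart, eval_rePart, eval_rePart,
    eval_imPart, eval_imPart, hz, e0', e1']
  simp

theorem nondeg_zero2 : (ofComplex (ff ZZ (R.W))).IsNondegCritical 0 := by
  constructor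
  · rw [field_ff, map_zero, Ez_zero, (lkQW n K R).1, map_zero]
  · intro x hx
    rw [jacobian_zero2, Polynomial.IsRoot, Matrix.charpoly_fin_two] at hx
    simp [Matrix.trace_fin_two, Matrix.det_fin_two] at hx
    nlinarith [sq_nonneg x]

theorem deg_zero2 : (ofComplex (ff ZZ (R.W))).deg = n := by
  refine le_antisymm ?_ ?_
  · exact max_le ((totalDegree_rePart _).trans (lkQW n K R).2.2.2.1.le)
      ((totalDegree_imPart _).trans (lkQW n K R).2.2.2.1.le)
  · conv_lhs => rw [← (lkQW n K R).2.2.2.1]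
    exact totalDegree_le_max _

theorem hasCycles2 : HasCycles n (ofComplex (ff ZZ (R.W))) 0 K := by
  intro U hU δ hδ
  have hU' : pl ⁻¹' U ∈ 𝓝 (0 : ℂ) := by
    apply pl.continuous.continuousAt
    rwa [map_zero]
  obtain ⟨H', hH', ε₀, hε₀, hall⟩ := lkRD n K R _ hU'
  set H := ff ZZ H' with hH
  set B : ℝ := ∑ s ∈ H.support, ‖MvPolynomial.coeff s H‖ + 1 with hB
  have hB0 : 0 < B := by
    have : 0 ≤ ∑ s ∈ H.support, ‖MvPolynomial.coeff s H‖ :=
      Finset.sum_nonneg fun _ _ => norm_nonneg _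
    linarith
  have hBs : ∀ s, ‖MvPolynomial.coeff s H‖ < B := by
    intro s
    by_cases hs : s ∈ H.support
    · have := Finset.single_le_sum (f := fun s => ‖MvPolynomial.coeff s H‖)
        (fun _ _ => norm_nonneg _) hs
      linarith
    · rw [MvPolynomial.notMem_support_iff] at hs
      rw [hs, norm_zero]
      exact hB0
  set ε := min (ε₀ / 2) (δ / B) with hε
  have hε1 : 0 < ε := lt_min (by positivity) (by positivity)
  have hε2 : ε < ε₀ := (min_le_left _ _).trans_lt (by linarith)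
  have hε3 : ε * B ≤ δ := by
    calc ε * B ≤ δ / B * B := mul_le_mul_of_nonneg_right (min_le_right _ _) hB0.le
      _ = δ := by field_simp
  obtain ⟨c, hcinj, hc⟩ := hall ε hε1 hε2
  refine ⟨ofComplex (ff ZZ (R.Wq H' ε)), ?_, ?_, fun j => pl '' range (c j), ?_,
    fun j => ⟨?_, ?_⟩⟩
  · exact max_le ((totalDegree_rePart _).trans ((lkQW n K R).2.2.2.2 H' ε hH'))
      ((totalDegree_imPart _).trans ((lkQW n K R).2.2.2.2 H' ε hH'))
  · intro s
    have h1 : MvPolynomial.coeff s (ff ZZ (R.Wq H' ε)) =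
        MvPolynomial.coeff s (ff ZZ (R.W)) + (ε : ℂ) * MvPolynomial.coeff s H := by
      have : R.Wq H' ε = R.W + MvPolynomial.C (ε : ℂ) * H' := rfl
      rw [this, ff_add, ff_mul, ff_C, MvPolynomial.coeff_add, MvPolynomial.coeff_C_mul]
    have h2 : ε * ‖MvPolynomial.coeff s H‖ < δ :=
      (mul_lt_mul_of_pos_left (hBs s) hε1).trans_le hε3
    constructor
    · change |MvPolynomial.coeff s (rePart (ff ZZ (R.Wq H' ε))) -
        MvPolynomial.coeff s (rePart (ff ZZ (R.W)))| < δ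
      rw [coeff_rePart, coeff_rePart, h1, Complex.add_re, add_sub_cancel_left, Complex.re_ofReal_mul,
        abs_mul, abs_of_pos hε1]
      exact (mul_le_mul_of_nonneg_left (Complex.abs_re_le_norm _) hε1.le).trans_lt h2
    · change |MvPolynomial.coeff s (imPart (ff ZZ (R.Wq H' ε))) -
        MvPolynomial.coeff s (imPart (ff ZZ (R.W)))| < δ
      rw [coeff_imPart, coeff_imPart, h1, Complex.add_im, add_sub_cancel_left, Complex.im_ofReal_mul,
        abs_mul, abs_of_pos hε1]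
      exact (mul_le_mul_of_nonneg_left (Complex.abs_im_le_norm _) hε1.le).trans_lt h2
  · intro i j hij
    exact hcinj (pl.injective.image_injective hij)
  · obtain ⟨hper, hne, hcU, O, hO, hcO, hun⟩ := hc j
    refine ⟨(isPeriodicOrbit_iff2 _ _).2 ⟨c j, hper, hne, rfl⟩, pl '' O, ?_, ?_, ?_⟩
    · exact pl.toHomeomorph.isOpenMap _ hO
    · exact image_mono hcO
    · intro γ' hγ' hsub
      obtain ⟨c', hper', -, rfl⟩ := (isPeriodicOrbit_iff2 _ _).1 hγ'
      rw [hun c' hper' ((image_subset_image_iff pl.injective).1 hsub)]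
  · obtain ⟨hper, hne, hcU, -⟩ := hc j
    exact image_subset_iff.2 hcU

include R in
theorem Hhat_ge : (K : ℕ∞) ≤ Hhat n := by
  have h3 : (K : ℕ∞) ≤ cyclicity n (ofComplex (ff ZZ (R.W))) 0 :=
    le_iSup₂ (f := fun (m : ℕ) (_ : HasCycles n (ofComplex (ff ZZ (R.W))) 0 m) => (m : ℕ∞)) _
      (hasCycles2 R)
  refine h3.trans ?_
  exact le_iSup_of_le _ (le_iSup_of_le 0 (le_iSup_of_le ⟨deg_zero2 R, nondeg_zero2 R⟩ le_rfl))

end general


theorem large_bound (a dl : ℕ) (ha : 11 ≤ a) (hd : dl ≤ 1) :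
    (((2 * a + 3 + dl) ^ 2 + 3 * (2 * a + 3 + dl) : ℕ) : ℕ∞) ≤
      Hhat (2 * a + 3 + dl) + (34 + 16 * dl : ℕ) := by
  obtain ⟨R⟩ := lkQP a dl ha hd
  have h1 := Hhat_ge R
  have h2 := lkCNT a dl ha hd
  have h3 : (2 * a + 3 + dl) ^ 2 + 3 * (2 * a + 3 + dl) ≤
      ((UA (a : ℤ) dl).card + (UB (a : ℤ) dl).card) + (34 + 16 * dl) := by
    have e : (2 * a + 4 + dl) * (2 * a + 5 + dl) =
        (2 * a + 3 + dl) ^ 2 + 3 * (2 * a + 3 + dl) + 2 := by ring
    omega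
  calc (((2 * a + 3 + dl) ^ 2 + 3 * (2 * a + 3 + dl) : ℕ) : ℕ∞) ≤
      ((((UA (a : ℤ) dl).card + (UB (a : ℤ) dl).card) + (34 + 16 * dl) : ℕ) : ℕ∞) := by
        exact_mod_cast h3
    _ = (((UA (a : ℤ) dl).card + (UB (a : ℤ) dl).card : ℕ) : ℕ∞) + (34 + 16 * dl : ℕ) := by
        push_cast; rfl
    _ ≤ Hhat (2 * a + 3 + dl) + (34 + 16 * dl : ℕ) := by gcongr

/-- **Theorem.** `Ĥ_n ≥ n² + n - 2` and `Ĥ_n ≥ n² + 3n - 50` for all `n ≥ 5`, and
`Ĥ_n ≥ n² + 3n - 34` for all odd `n ≥ 25`. -/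
theorem result : (∀ n : ℕ, 5 ≤ n → ((n ^ 2 + n : ℕ) : ℕ∞) ≤ Hhat n + 2 ∧
      ((n ^ 2 + 3 * n : ℕ) : ℕ∞) ≤ Hhat n + 50) ∧
    ∀ n : ℕ, 25 ≤ n → Odd n → ((n ^ 2 + 3 * n : ℕ) : ℕ∞) ≤ Hhat n + 34 := by
  refine ⟨fun n hn => ?_, fun n hn ho => ?_⟩
  · have hlow := lower₁ n hn
    have h3 : 2 ≤ n ^ 2 + n := by nlinarith
    have h4 : ((n ^ 2 + n : ℕ) : ℕ∞) ≤ Hhat n + 2 := by
      calc ((n ^ 2 + n : ℕ) : ℕ∞) = ((n ^ 2 + n - 2 : ℕ) : ℕ∞) + 2 := by
            exact_mod_cast (by omega : n ^ 2 + n = n ^ 2 + n - 2 + 2)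
        _ ≤ Hhat n + 2 := by gcongr
    refine ⟨h4, ?_⟩
    rcases Nat.lt_or_ge n 25 with h | h
    · calc ((n ^ 2 + 3 * n : ℕ) : ℕ∞) ≤ ((n ^ 2 + n + 48 : ℕ) : ℕ∞) := by
            exact_mod_cast (by omega : n ^ 2 + 3 * n ≤ n ^ 2 + n + 48)
        _ = ((n ^ 2 + n : ℕ) : ℕ∞) + 48 := by push_cast; rfl
        _ ≤ (Hhat n + 2) + 48 := by gcongr
        _ = Hhat n + 50 := by rw [add_assoc]; norm_num
    · obtain ⟨a, dl, hd, rfl⟩ : ∃ a dl : ℕ, dl ≤ 1 ∧ n = 2 * a + 3 + dl :=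
        ⟨(n - 3) / 2, (n - 3) % 2, by omega, by omega⟩
      refine (large_bound a dl (by omega) hd).trans ?_
      gcongr
      exact_mod_cast (by omega : 34 + 16 * dl ≤ 50)
  · obtain ⟨k, hk⟩ := ho
    obtain ⟨a, rfl⟩ : ∃ a : ℕ, n = 2 * a + 3 + 0 := ⟨k - 1, by omega⟩
    exact large_bound a 0 (by omega) (by omega)

end

end Pool.Agent.Results.MP_940ffa_an.LocalCyclicityGine
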